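import Pool.Agent.Helper78.DT.Goals

/-!
# DT-FOO: for good coefficients the generator fools all decision lists of width `t`
-/

namespace Pool.Agent.Helper9.DT

open scoped Classical
open Pool.Agent.Helper78.DT

theorem pr_swap {q P : ℕ} (E : Fin q × Fin P → Prop) :
    pr E = av fun z : Fin P => pr fun a : Fin q => E (a, z) := by
  unfold pr
  rw [av_prod, av_comm]

theorem pr_upper {q P : ℕ} [Nonempty (Fin P)] (E : Fin q × Fin P → Prop) (B : Fin P → Prop)
    (c : ℝ) (hc : 0 ≤ c) (h : ∀ z, ¬ B z → (pr fun a : Fin q => E (a, z)) ≤ c) :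
    pr E ≤ c + pr B := by
  rw [pr_swap]
  have h1 : (av fun z : Fin P => pr fun a : Fin q => E (a, z)) ≤
      av fun z : Fin P => c + (if B z then (1 : ℝ) else 0) := by
    refine av_mono fun z => ?_
    by_cases hz : B z
    · rw [if_pos hz]
      have := pr_le_one (fun a : Fin q => E (a, z))
      linarith
    · rw [if_neg hz]
      have := h z hz
      linarith
  rw [av_add (fun _ : Fin P => c) (fun z => if B z then (1 : ℝ) else 0), av_const] at h1
  exact h1

theorem pr_lower {q P : ℕ} [Nonempty (Fin P)] (E : Fin q × Fin P → Prop) (B : Fin P → Prop)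
    (c : ℝ) (hc : c ≤ 1) (h : ∀ z, ¬ B z → c ≤ pr fun a : Fin q => E (a, z)) :
    c ≤ pr E + pr B := by
  rw [pr_swap]
  have h1 : (av fun _ : Fin P => c) ≤
      av fun z : Fin P => (pr fun a : Fin q => E (a, z)) + (if B z then (1 : ℝ) else 0) := by
    refine av_mono fun z => ?_
    by_cases hz : B z
    · rw [if_pos hz]
      have := pr_nonneg (fun a : Fin q => E (a, z))
      linarith
    · rw [if_neg hz]
      have := h z hz
      linarith
  rw [av_add (fun z : Fin P => pr fun a : Fin q => E (a, z))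
    (fun z => if B z then (1 : ℝ) else 0), av_const] at h1
  exact h1

theorem hs_lt {P : ℕ} (hP : 0 < P) (e z v : ℕ) : hs P e z v < P := Nat.mod_lt _ hP

theorem foo (hBrk : BrkStmt) (hBdp : BdpStmt) (hRnb : RnbStmt) (hDep : DepStmt)
    (hInj : InjStmt) : FooStmt := by
  intro R P d q t s e n η κ δ θ hP hq hη hη1 hκ hs1 hn hδ hG f hf
  have hP0 : 0 < P := hP.pos
  have : Nonempty (Fin P) := ⟨⟨0, hP0⟩⟩
  have h2t : (0 : ℝ) < 2 ^ t := by positivity
  have hk : 0 < κ / 2 ^ t := by positivity
  obtain ⟨g, hsub, hlen, hbr⟩ := hBrk (Fin n) η (κ / 2 ^ t) t f hη hη1 hk hf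
  have hkk : (2 : ℝ) ^ t * (κ / 2 ^ t) = κ := by field_simp
  rw [hkk] at hbr
  have hwg : Wid t g := fun p hp => hf p (hsub.subset hp)
  have hgs : g.length ≤ s := by
    have h1 : (g.length : ℝ) * (κ / 2 ^ t) ^ η ≤ s * (κ / 2 ^ t) ^ η := hlen.trans hs1
    have h2 : 0 < (κ / 2 ^ t) ^ η := Real.rpow_pos_of_pos hk η
    exact_mod_cast le_of_mul_le_mul_right h1 h2
  -- the exceptional event
  have hbase : 0 ≤ κ ^ (1 - η) * (2 / η) ^ t := by
    have := Real.rpow_nonneg hκ.le (1 - η)
    positivity
  have hbad : pr (Bad t κ g) ≤ (s + 1) * (κ ^ (1 - η) * (2 / η) ^ t) := by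
    refine (hBdp (Fin n) η κ t g hη hη1 hκ.le).trans ?_
    refine mul_le_mul_of_nonneg_right ?_ hbase
    have : (g.length : ℝ) ≤ s := by exact_mod_cast hgs
    linarith
  -- few variables
  have hvars : (vars g).ncard ≤ t * s :=
    ((hDep (Fin n) g t κ).2.2 hwg).trans (Nat.mul_le_mul_left t hgs)
  set S : Set ℕ := (fun v : Fin n => (v : ℕ)) '' vars g with hSdef
  have hSfin : S.Finite := (Set.toFinite (vars g)).image _
  have hScard : S.ncard ≤ t * s := (Set.ncard_image_le (Set.toFinite (vars g))).trans hvars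
  have hSlt : ∀ v ∈ S, v < 2 ^ e := by
    rintro v ⟨w, _, rfl⟩
    exact lt_of_lt_of_le w.2 hn
  have hinj := hInj P e (t * s) hP S hSlt hSfin hScard
  set B : Fin P → Prop := fun z => ¬ Set.InjOn (fun v => hs P e z v) S with hBdef
  -- the renamings
  have hmain : ∀ z : Fin P, ¬ B z →
      (|pr (fun a : Fin q => lo t κ g (fun v => hb R P d θ a (hs P e z v))) - pr (lo t κ g)| ≤ δ) ∧
      (|pr (fun a : Fin q => hi t κ g (fun v => hb R P d θ a (hs P e z v))) - pr (hi t κ g)| ≤
        δ) := by
    intro z hz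
    have hz' : Set.InjOn (fun v => hs P e z v) S := by
      by_contra h
      exact hz h
    let π : Fin n → Fin P := fun v => ⟨hs P e z v, hs_lt hP0 e z v⟩
    have hπ : Set.InjOn π (vars g) := by
      intro v hv w hw hvw
      have h1 : hs P e z v = hs P e z w := congrArg Fin.val hvw
      have h2 : (v : ℕ) = (w : ℕ) :=
        hz' (Set.mem_image_of_mem _ hv) (Set.mem_image_of_mem _ hw) h1
      exact Fin.ext h2
    obtain ⟨r1, r2, r3, r4, r5, r6⟩ := hRnb (Fin n) (Fin P) π g t κ hπ
    have hgood := hG (ren π g) (r5 hwg) (by rw [r6]; exact hgs)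
    rw [r3, r4] at hgood
    have e1 : (fun a : Fin q => lo t κ (ren π g) (st R P d θ a)) =
        fun a : Fin q => lo t κ g (fun v => hb R P d θ a (hs P e z v)) := by
      funext a
      exact propext (r1 (st R P d θ a))
    have e2 : (fun a : Fin q => hi t κ (ren π g) (st R P d θ a)) =
        fun a : Fin q => hi t κ g (fun v => hb R P d θ a (hs P e z v)) := by
      funext a
      exact propext (r2 (st R P d θ a))
    rw [e1, e2] at hgood
    exact hgood
  -- upper bound
  have hup : pr (fun p : Fin q × Fin P =>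
      hi t κ g (fun v => hb R P d θ p.1 (hs P e p.2 v))) ≤ (pr (hi t κ g) + δ) + pr B := by
    refine pr_upper _ B _ ?_ ?_
    · have := pr_nonneg (hi t κ g)
      linarith
    · intro z hz
      have := (abs_le.mp (hmain z hz).2).2
      linarith
  have hlow : pr (lo t κ g) - δ ≤ pr (fun p : Fin q × Fin P =>
      lo t κ g (fun v => hb R P d θ p.1 (hs P e p.2 v))) + pr B := by
    refine pr_lower _ B _ ?_ ?_
    · have := pr_le_one (lo t κ g)
      linarith
    · intro z hz
      have := (abs_le.mp (hmain z hz).1).1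
      linarith
  have hup2 : pr (fun p : Fin q × Fin P =>
        ev f (fun v => hb R P d θ p.1 (hs P e p.2 v)) = true) ≤ pr (fun p : Fin q × Fin P =>
      hi t κ g (fun v => hb R P d θ p.1 (hs P e p.2 v))) := pr_mono fun p hp => (hbr _).2 hp
  have hlow2 : pr (fun p : Fin q × Fin P =>
      lo t κ g (fun v => hb R P d θ p.1 (hs P e p.2 v))) ≤ pr (fun p : Fin q × Fin P =>
        ev f (fun v => hb R P d θ p.1 (hs P e p.2 v)) = true) := pr_mono fun p hp => (hbr _).1 hp
  have hup3 : pr (hi t κ g) ≤ pr (fun x => ev f x = true) + pr (Bad t κ g) := by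
    refine pr_le_add_of_imp fun x hx => ?_
    by_cases hb1 : Bad t κ g x
    · exact Or.inr hb1
    · refine Or.inl ((hbr x).1 ⟨?_, hb1⟩)
      rcases hx with hx | hx
      · exact hx
      · exact absurd hx hb1
  have hlow3 : pr (fun x => ev f x = true) ≤ pr (lo t κ g) + pr (Bad t κ g) := by
    refine pr_le_add_of_imp fun x hx => ?_
    by_cases hb1 : Bad t κ g x
    · exact Or.inr hb1
    · refine Or.inl ⟨?_, hb1⟩
      rcases (hbr x).2 hx with hx | hx
      · exact hx
      · exact absurd hx hb1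
  rw [abs_le]
  constructor
  · linarith
  · linarith

end Pool.Agent.Helper9.DT
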